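import Pool.Agent.helper62.EN.SpecA

/-!
# Row ksy:FNL: frontiers of cylinders
-/

set_option autoImplicit false

open scoped Topology
open MeasureTheory Filter Set

namespace Pool.Agent.EN

theorem FNL_pre {X : Type} [TopologicalSpace X] [MeasurableSpace X] [BorelSpace X] (μ : Measure X) (T : X → X)
    (hT : Continuous T) (hμ : μ.map T = μ) (A : Set X) (hA : μ (frontier A) = 0) (i : ℕ) :
    μ (frontier (T^[i] ⁻¹' A)) = 0 := by
  have hTi : Continuous (T^[i]) := hT.iterate i
  have hmap : μ.map (T^[i]) = μ := by
    induction i with
    | zero => simp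
    | succ k ih =>
      have hk : Continuous (T^[k]) := hT.iterate k
      rw [Function.iterate_succ, ← Measure.map_map hk.measurable hT.measurable, hμ, ih hk]
  refine measure_mono_null (hTi.frontier_preimage_subset A) ?_
  rw [← Measure.map_apply hTi.measurable isClosed_frontier.measurableSet, hmap, hA]

theorem FNL_proof : FNL_stmt := by
  intro X _ _ _ μ T p P n w hT hμ hP
  have hset : {x | ∀ i : Fin n, P (T^[i] x) = w i} = ⋂ i : Fin n, (T^[i] ⁻¹' (P ⁻¹' {w i})) := by
    ext x
    simp
  rw [hset]
  have hsub : ∀ s : Finset (Fin n), μ (frontier (⋂ i ∈ s, (T^[(i : ℕ)] ⁻¹' (P ⁻¹' {w i})))) = 0 := by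
    intro s
    classical
    induction s using Finset.induction_on with
    | empty => simp
    | insert a s ha ih =>
      rw [Finset.set_biInter_insert]
      refine measure_mono_null (frontier_inter_subset _ _) ?_
      refine measure_union_null ?_ ?_
      · exact measure_mono_null inter_subset_left (FNL_pre μ T hT hμ _ (hP _) a)
      · exact measure_mono_null inter_subset_right ih
  have h := hsub Finset.univ
  simpa using h

end Pool.Agent.EN
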