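import Pool.Agent.helper62.EN.SpecX
import Pool.Agent.helper62.RS.All

/-!
# Row ksy:XFL: the flow on `Γ \ G`
-/

set_option autoImplicit false

open scoped MatrixGroups ContDiff Topology UpperHalfPlane
open UpperHalfPlane MeasureTheory Filter Set

namespace Pool.Agent.EN

theorem XFL_proof : XFL_stmt := by
  intro Γ
  have hglc := RS.A_GLC
  obtain ⟨-, -, -, haM, -, -, -, -, -, -, hadd, -⟩ := hglc
  have haM0 : RS.aM 0 = 1 := by
    have h := hadd 0 0
    rw [add_zero] at h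
    have h2 : RS.aM 0 * 1 = RS.aM 0 * RS.aM 0 := by rw [mul_one]; exact h
    exact (mul_left_cancel h2).symm
  have hc1 : Continuous (mkX Γ) := continuous_quotient_mk'
  have ho1 : IsOpenMap (mkX Γ) := isOpenMap_quotient_mk'_mul
  have hs1 : Function.Surjective (mkX Γ) := Quotient.mk_surjective
  have hc2 : Continuous (mkM Γ) := continuous_quotient_mk'
  have ho2 : IsOpenMap (mkM Γ) := isOpenMap_quotient_mk'_mul
  have hs2 : Function.Surjective (mkM Γ) := Quotient.mk_surjective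
  have hfl : ∀ t g, fl Γ t (mkX Γ g) = mkX Γ (g * RS.aM t) := fun t g => rfl
  have hpr : ∀ g, pr Γ (mkX Γ g) = mkM Γ (g • I) := fun g => rfl
  refine ⟨⟨?_, ?_, ?_⟩, ?_, hc1, ho1, hs1, hc2, ho2, hs2, hfl, hpr, ?_, ?_⟩
  · have hq : IsOpenQuotientMap (Prod.map (id : ℝ → ℝ) (mkX Γ)) :=
      ⟨Function.surjective_id.prodMap hs1, continuous_id.prodMap hc1, IsOpenMap.id.prodMap ho1⟩
    rw [hq.isQuotientMap.continuous_iff]
    have : (fun q : ℝ × XG Γ => fl Γ q.1 q.2) ∘ Prod.map (id : ℝ → ℝ) (mkX Γ) =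
        fun q : ℝ × SL(2, ℝ) => mkX Γ (q.2 * RS.aM q.1) := by
      funext q
      rfl
    rw [this]
    exact hc1.comp (continuous_snd.mul (haM.comp continuous_fst))
  · intro x
    obtain ⟨g, rfl⟩ := hs1 x
    rw [hfl, haM0, mul_one]
  · intro s t x
    obtain ⟨g, rfl⟩ := hs1 x
    rw [hfl, hfl, hfl, mul_assoc, ← hadd, add_comm]
  · have hq : IsOpenQuotientMap (mkX Γ) := ⟨hs1, hc1, ho1⟩
    rw [hq.isQuotientMap.continuous_iff]
    have : pr Γ ∘ mkX Γ = fun g => mkM Γ (g • I) := by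
      funext g
      rfl
    rw [this]
    exact hc2.comp (continuous_id.smul continuous_const)
  · intro g g'
    constructor
    · intro h
      obtain ⟨γ, hγ⟩ := Quotient.exact h
      refine ⟨γ⁻¹, ?_⟩
      have h2 : (γ : SL(2, ℝ)) * g' = g := hγ
      rw [← h2, ← mul_assoc]
      simp
    · rintro ⟨γ, h⟩
      refine Quotient.sound ⟨γ⁻¹, ?_⟩
      show ((γ⁻¹ : Γ) : SL(2, ℝ)) * g' = g
      rw [← h, ← mul_assoc]
      simp
  · intro z z'
    constructor
    · intro h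
      obtain ⟨γ, hγ⟩ := Quotient.exact h
      refine ⟨γ⁻¹, ?_⟩
      have h2 : γ • z' = z := hγ
      rw [← h2, inv_smul_smul]
    · rintro ⟨γ, h⟩
      refine Quotient.sound ⟨γ⁻¹, ?_⟩
      show γ⁻¹ • z' = z
      rw [← h, inv_smul_smul]

end Pool.Agent.EN
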