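import Pool.Agent.helper62.RS.All
import Pool.Agent.helper11.EN.HLG
import Pool.Agent.helper11.EN.XTM
import Pool.Agent.helper18.EN.SMP
import Pool.Agent.helper20.EN.CNT
import Pool.Agent.helper21.EN.NUB
import Pool.Agent.helper21.EN.XDS
import Pool.Agent.helper27.EN.JEN
import Pool.Agent.helper27.EN.WTP
import Pool.Agent.helper27.EN.XVO
import Pool.Agent.helper3.EN.XLF
import Pool.Agent.helper34.EN.LM2
import Pool.Agent.helper49.EN.INL
import Pool.Agent.helper50.EN.LVF
import Pool.Agent.helper52.EN.SBA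
import Pool.Agent.helper57.EN.PAR
import Pool.Agent.helper6.EN.XCY
import Pool.Agent.helper62.EN.FNL
import Pool.Agent.helper62.EN.XFL
import Pool.Agent.helper63.EN.FNA
import Pool.Agent.helper63.EN.NKL
import Pool.Agent.helper65.EN.GMU
import Pool.Agent.helper67.EN.PK2
import Pool.Agent.helper68.EN.MIS
import Pool.Agent.helper68.EN.XNB
import Pool.Agent.helper72.EN.ENT
import Pool.Agent.helper72.EN.KIN
import Pool.Agent.helper72.EN.XTX
import Pool.Agent.helper74.EN.XUN
import Pool.Agent.helper75.EN.LM1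
import Pool.Agent.helper80.EN.FNC
import Pool.Agent.helper87.EN.HSB
import Pool.Agent.helper89.EN.BLK
import Pool.Agent.helper92.EN.KIS

/-!
# MP_07c750, EN: the entropy of averages of eigenfunctions: assembly of the rows
-/

set_option autoImplicit false

namespace Pool.Agent.EN

theorem A_XFL : XFL_stmt := XFL_proof
theorem A_WTP : WTP_stmt := WTP_proof A_XFL
theorem A_KIN : KIN_stmt := KIN_proof
theorem A_NUB : NUB_stmt := NUB_proof
theorem A_SMP : SMP_stmt := SMP_proof
theorem A_XTX : XTX_stmt := XTX_proof A_XFL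
theorem A_KIS : KIS_stmt := KIS_proof A_WTP A_KIN A_NUB A_SMP A_XFL A_XTX
theorem A_ENT : ENT_stmt := ENT_proof A_WTP A_KIS A_SMP A_XFL A_XTX
theorem A_LVF : LVF_stmt := LVF_proof A_WTP A_XFL
theorem A_INL : INL_stmt := INL_proof A_SMP
theorem A_SBA : SBA_stmt := SBA_proof
theorem A_HSB : HSB_stmt := HSB_proof A_SBA
theorem A_HLG : HLG_stmt := HLG_proof
theorem A_BLK : BLK_stmt := BLK_proof A_HSB A_HLG
theorem A_JEN : JEN_stmt := JEN_proof
theorem A_MIS : MIS_stmt := MIS_proof A_BLK A_JEN A_HLG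
theorem A_FNL : FNL_stmt := FNL_proof
theorem A_CNT : CNT_stmt := CNT_proof A_FNL
theorem A_LM1 : LM1_stmt := LM1_proof A_SMP A_INL A_MIS A_CNT
theorem A_NKL : NKL_stmt := NKL_proof
theorem A_GMU : GMU_stmt := GMU_proof A_WTP A_ENT A_LVF A_LM1 A_XFL A_XTX A_NKL
theorem A_PK2 : PK2_stmt := PK2_proof
theorem A_PAR : PAR_stmt := PAR_proof
theorem A_LM2 : LM2_stmt := LM2_proof A_CNT A_PAR
theorem A_XDS : XDS_stmt := XDS_proof
theorem A_XLF : XLF_stmt := XLF_proof A_XDS
theorem A_XVO : XVO_stmt := XVO_proof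
theorem A_XUN : XUN_stmt := XUN_proof
theorem A_XCY : XCY_stmt := XCY_proof A_XFL A_XLF A_XVO A_XUN
theorem A_XNB : XNB_stmt := XNB_proof A_XFL
theorem A_XTM : XTM_stmt := XTM_proof A_XFL
theorem A_FNC : FNC_stmt := FNC_proof A_GMU A_PK2 A_LM2 A_XCY A_XNB A_XFL A_XTX A_XTM
theorem A_FNA : FNA_stmt := FNA_proof A_FNC

end Pool.Agent.EN
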