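import Pool.Agent.helper62.EN.SpecA
import Pool.Agent.helper62.RS.SpecG

/-!
# MP_07c750, project EN: block X (the space `X = Γ \ SL(2, ℝ)`, volume of cylinders), rows `ksy:X`

Rules as in `SpecA`. `RS.GLC_stmt`, `RS.GMG_stmt`, `RS.GLI_stmt`, `RS.GRI_stmt`, `RS.GFD_stmt` are proved (`RS.A_GLC`, .. in `Pool.Agent.helper62.RS.All`; you may import All).
-/

open scoped MatrixGroups ContDiff Topology UpperHalfPlane ComplexConjugate
open UpperHalfPlane MeasureTheory Filter Set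

namespace Pool.Agent.EN

/-- `h` is near the identity -/
def nr (δ : ℝ) (h : SL(2, ℝ)) : Prop := ∀ i j : Fin 2, |h.1 i j - (1 : Matrix (Fin 2) (Fin 2) ℝ) i j| < δ

/-- a neighbourhood of `x` -/
def Ux (Γ : Subgroup SL(2, ℝ)) (δ : ℝ) (x : XG Γ) : Set (XG Γ) :=
  {y | ∃ g h : SL(2, ℝ), nr δ h ∧ x = mkX Γ g ∧ y = mkX Γ (g * h)}

/-- the invariant measure of `X` -/
noncomputable def mX (Γ : Subgroup SL(2, ℝ)) (F : Set ℍ) : Measure (XG Γ) :=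
  (RS.mG.restrict (RS.dG F)).map (mkX Γ)

/-- **Row XFL** (short-medium). `mkX`, `mkM` are continuous (`continuous_quotient_mk'`), open (`isOpenMap_quotient_mk'_mul`; the action of each element is a homeomorphism) and surjective; `fl`, `pr` on classes are `rfl`. Joint continuity of the flow: `id × mkX` is a quotient map (open, continuous, surjective:
`IsOpenMap.prodMap`, `IsOpenQuotientMap`), and `(t, g) ↦ mkX (g * aM t)` is continuous (`GLC`: `aM` is continuous). Equality of classes: `Quotient.eq`, `MulAction.orbitRel_apply`. `aM 0 = 1` (from `aM (0+0)` or `GLC_ext`). -/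
def XFL_stmt : Prop := ∀ Γ : Subgroup SL(2, ℝ), FlowOn (fl Γ) ∧ Continuous (pr Γ) ∧ Continuous (mkX Γ) ∧ IsOpenMap (mkX Γ) ∧ Function.Surjective (mkX Γ) ∧
  Continuous (mkM Γ) ∧ IsOpenMap (mkM Γ) ∧ Function.Surjective (mkM Γ) ∧
  (∀ t g, fl Γ t (mkX Γ g) = mkX Γ (g * RS.aM t)) ∧ (∀ g, pr Γ (mkX Γ g) = mkM Γ (g • I)) ∧
  (∀ g g', mkX Γ g = mkX Γ g' ↔ ∃ γ : Γ, (γ : SL(2, ℝ)) * g = g') ∧ (∀ z z', mkM Γ z = mkM Γ z' ↔ ∃ γ : Γ, γ • z = z')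

/-- **Row XTM** (short-medium; from XFL, QU.DOB last part). `M` is compact (the image of the compact `K` of `cocompact`), second countable (open continuous image; instance for quotients by `ContinuousConstSMul`) and Hausdorff (`t2Space_of_properlyDiscontinuousSMul_of_t2Space`; for compact `K`, `L` the set of the `γ` with
`γ K ∩ L ≠ ∅` is finite by `SurfaceGroup.discrete` for `K ∪ L`). -/
def XTM_stmt : Prop := ∀ Γ : Subgroup SL(2, ℝ), QU.SurfaceGroup Γ → CompactSpace (MG Γ) ∧ T2Space (MG Γ) ∧ SecondCountableTopology (MG Γ)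

/-- **Row XTX** (short-medium; from XFL, GLC). The same for `X`: `{g | g • I ∈ K}` is compact (GLC) and is mapped onto `X`; for compact `A`, `B` in `SL(2, ℝ)`: `γ A ∩ B ≠ ∅` implies `γ (A • I) ∩ (B • I) ≠ ∅`. -/
def XTX_stmt : Prop := ∀ Γ : Subgroup SL(2, ℝ), QU.SurfaceGroup Γ → CompactSpace (XG Γ) ∧ T2Space (XG Γ) ∧ SecondCountableTopology (XG Γ)

/-- **Row XNB** (short; from XFL). The set `{g * h | nr δ h}` is open (`nr δ` is an open condition by continuity of the entries, left multiplication is a homeomorphism) and contains `g`; its image under the open map `mkX` is contained in `Ux Γ δ (mkX Γ g)`. -/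
def XNB_stmt : Prop := ∀ (Γ : Subgroup SL(2, ℝ)) (δ : ℝ) (x : XG Γ), 0 < δ → Ux Γ δ x ∈ 𝓝 x

/-- **Row XDS** (medium; from GLC). No short elements: `γ` with `g⁻¹ γ g` near `1` is `1`. Let `K` be as in `cocompact`; replacing `g` by `γ' g` and `γ` by `γ' γ γ'⁻¹` assume `g • I ∈ K`. If not, there are `g_n` with `g_n • I ∈ K` (a compact set of `g`, GLC) and `γ_n ≠ 1` with `g_n⁻¹ γ_n g_n → 1`; for a subsequence `g_n → g`, so
`γ_n = g_n (..) g_n⁻¹ → 1` in `SL(2, ℝ)`; then `γ_n • I → I`, the `γ_n` are in the finite set of `γ` with `γ K₁ ∩ K₁ ≠ ∅`, `K₁` a closed ball around `I`; a constant subsequence gives `γ = 1` (`SurfaceGroup.free`: `γ • I = I`). -/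
def XDS_stmt : Prop := ∀ Γ : Subgroup SL(2, ℝ), QU.SurfaceGroup Γ → ∃ ε : ℝ, 0 < ε ∧ ∀ (g : SL(2, ℝ)) (γ : Γ), nr ε (g⁻¹ * (γ : SL(2, ℝ)) * g) → γ = 1

/-- **Row XLF** (short-medium; from XDS, GLC). Lifting. `h_i = (g₀ a_i)⁻¹ γ_i (g a_i)`, `a_i = aM i`. With `k = g a_(i+1)`: `k⁻¹ (γ_i⁻¹ γ_(i+1)) k = (a_1⁻¹ h_i a_1)⁻¹ h_(i+1)`, and `a_1⁻¹ h_i a_1` has the entries of `h_i`, the ones off the diagonal multiplied by `e`, `e⁻¹`. For small `δ` the product is `nr ε`,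
so `γ_(i+1) = γ_i`. -/
def XLF_stmt : Prop := ∀ Γ : Subgroup SL(2, ℝ), QU.SurfaceGroup Γ → ∃ δ : ℝ, 0 < δ ∧ δ ≤ 1 ∧ ∀ (g₀ g : SL(2, ℝ)) (n : ℕ) (γ : ℕ → Γ),
  (∀ i < n, nr δ ((g₀ * RS.aM i)⁻¹ * (γ i : SL(2, ℝ)) * (g * RS.aM i))) → ∀ i < n, γ i = γ 0

/-- **Row XVO** (medium; from GMG). The volume of a thin set. In the coordinates `h = toSL2R z * kM θ` of GMG (fourth part, for the indicator function; the set is closed) the lower row of `h` is `(-sin θ / √y, cos θ / √y)` with square norm `1/y ≤ 8`, the square norm of the upper row is `(x² + y²)/y ≤ 8`: so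
`1/8 ≤ y ≤ 8`, `|x| ≤ 8`, a set of finite area, and `|sin θ| ≤ τ √y ≤ 3τ`, a set of `θ` in `(0, 2π]` of measure `≤ 20 τ` (`|sin θ| ≥ (2/π) |θ|` for `|θ| ≤ π/2`). (`toSL2R z = [[√y, x/√y], [0, 1/√y]]`.) -/
def XVO_stmt : Prop := ∃ C : ℝ, 0 < C ∧ ∀ τ : ℝ, 0 < τ →
  RS.mG {h : SL(2, ℝ) | (∀ i j : Fin 2, |h.1 i j| ≤ 2) ∧ |h.1 1 0| ≤ τ} ≤ ENNReal.ofReal (C * τ)

/-- **Row XUN** (short-medium; from GFD, GLI). `mG (dG F ∩ ⋃_γ γ⁻¹ g₀ H) ≤ Σ_γ mG (dG F ∩ γ⁻¹ g₀ H) = Σ_γ mG (γ dG F ∩ g₀ H) ≤ mG (g₀ H) = mG H` (`γ (dG F) = dG (γ F)`, disjoint for different `γ` by `NiceDom.uniq`; `Γ` countable by QU.DOB; left invariance GLI). -/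
def XUN_stmt : Prop := ∀ (Γ : Subgroup SL(2, ℝ)) (F : Set ℍ) (g₀ : SL(2, ℝ)) (H : Set SL(2, ℝ)), QU.SurfaceGroup Γ → QU.NiceDom Γ F → MeasurableSet H →
  RS.mG (RS.dG F ∩ {g | ∃ γ : Γ, g₀⁻¹ * (γ : SL(2, ℝ)) * g ∈ H}) ≤ RS.mG H

/-- **Row XCY** (medium; from XFL, XLF, XVO, XUN, GLC). The volume of cylinders. `δ` of XLF, `δ'` so small that `nr δ' h₁`, `nr δ' h₂` imply `nr δ (h₁⁻¹ h₂)`. Let the cylinder `Z` of the word `w` be nonempty, `mkX g₀ ∈ Z`. For `mkX g ∈ Z` and `i < n` the points `mkX (g₀ a_i)`, `mkX (g a_i)` (`(fl 1)^[i] = fl i`) lie in the same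
cell, so in `Ux Γ δ' y` for some `y`: there is `γ_i` with `(g₀ a_i)⁻¹ γ_i (g a_i) = h₁⁻¹ h₂`. By XLF `γ_i = γ_0` for `i < n`. So `h = g₀⁻¹ γ_0 g` satisfies `nr δ (a_i⁻¹ h a_i)` for all `i < n`: for `i = 0` the entries are `≤ 2`, and for `i = n - 1` the lower left entry: `|h₁₀| e^(n-1) ≤ δ ≤ 1`. So `Z` is contained in the set of XUN
for `H` of XVO with `τ = e^(1-n)`: `mX Z ≤ C e e^(-n)`. (`aM i` has the entries `e^(±i/2)`; `mX Z = mG (dG F ∩ mkX⁻¹ Z)`, `Measure.map_apply`.) -/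
def XCY_stmt : Prop := ∀ (Γ : Subgroup SL(2, ℝ)) (F : Set ℍ), QU.SurfaceGroup Γ → QU.NiceDom Γ F → ∃ δ C : ℝ, 0 < δ ∧ 0 < C ∧
  ∀ (p : ℕ) (P : XG Γ → Fin p), Measurable P → (∀ i, (P ⁻¹' {i}).Nonempty → ∃ x, P ⁻¹' {i} ⊆ Ux Γ δ x) → ∀ (n : ℕ) (w : Fin n → Fin p), 1 ≤ n →
    (mX Γ F).real {x | ∀ i : Fin n, P ((fl Γ 1)^[i] x) = w i} ≤ C * Real.exp (-n)

end Pool.Agent.EN
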