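import Pool.Agent.helper62.RS.FDefs

/-!
# MP_07c750: the entropy of averages of eigenfunctions on a closed hyperbolic surface: the notions of the theorem
-/

open scoped MatrixGroups ContDiff Topology UpperHalfPlane
open UpperHalfPlane MeasureTheory Filter Set

namespace Pool.Agent.EN

/-- `X = Γ \ SL(2, ℝ)`, a double cover of the unit tangent bundle of `M = Γ \ ℍ` -/
def XG (Γ : Subgroup SL(2, ℝ)) : Type := Quotient (MulAction.orbitRel Γ SL(2, ℝ))

/-- `M = Γ \ ℍ` -/
def MG (Γ : Subgroup SL(2, ℝ)) : Type := Quotient (MulAction.orbitRel Γ ℍ)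

/-- the quotient topology -/
instance instTopX (Γ : Subgroup SL(2, ℝ)) : TopologicalSpace (XG Γ) :=
  inferInstanceAs (TopologicalSpace (Quotient (MulAction.orbitRel Γ SL(2, ℝ))))

/-- the Borel sets -/
instance instMeasX (Γ : Subgroup SL(2, ℝ)) : MeasurableSpace (XG Γ) := borel _

instance instBorelX (Γ : Subgroup SL(2, ℝ)) : BorelSpace (XG Γ) := ⟨rfl⟩

/-- the quotient topology -/
instance instTopM (Γ : Subgroup SL(2, ℝ)) : TopologicalSpace (MG Γ) :=
  inferInstanceAs (TopologicalSpace (Quotient (MulAction.orbitRel Γ ℍ)))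

/-- the Borel sets -/
instance instMeasM (Γ : Subgroup SL(2, ℝ)) : MeasurableSpace (MG Γ) := borel _

instance instBorelM (Γ : Subgroup SL(2, ℝ)) : BorelSpace (MG Γ) := ⟨rfl⟩

/-- the point `Γ g` of `X` -/
def mkX (Γ : Subgroup SL(2, ℝ)) (g : SL(2, ℝ)) : XG Γ := Quotient.mk (MulAction.orbitRel Γ SL(2, ℝ)) g

/-- the point `Γ z` of `M` -/
noncomputable def mkM (Γ : Subgroup SL(2, ℝ)) (z : ℍ) : MG Γ := Quotient.mk (MulAction.orbitRel Γ ℍ) z

/-- the geodesic flow `Γ g ↦ Γ g a_t` on `X` -/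
noncomputable def fl (Γ : Subgroup SL(2, ℝ)) (t : ℝ) : XG Γ → XG Γ :=
  Quotient.map (fun g : SL(2, ℝ) => g * RS.aM t) (by
    rintro a b ⟨γ, h⟩
    refine ⟨γ, ?_⟩
    have h' : (γ : SL(2, ℝ)) * b = a := h
    show (γ : SL(2, ℝ)) * (b * RS.aM t) = a * RS.aM t
    rw [← h', mul_assoc])

/-- the projection `Γ g ↦ Γ (g i)` from `X` to `M` -/
noncomputable def pr (Γ : Subgroup SL(2, ℝ)) : XG Γ → MG Γ :=
  Quotient.map (fun g : SL(2, ℝ) => g • I) (by
    rintro a b ⟨γ, h⟩
    refine ⟨γ, ?_⟩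
    have h' : (γ : SL(2, ℝ)) * b = a := h
    rw [← h', mul_smul]
    rfl)

/-- the entropy of the partition of `X` into the sets of points with the same itinerary
`P(x), P(T x), ..., P(T^(n-1) x)` -/
noncomputable def Hn {X : Type} [MeasurableSpace X] (μ : Measure X) (T : X → X) {p : ℕ}
    (P : X → Fin p) (n : ℕ) : ℝ :=
  ∑ w : Fin n → Fin p, Real.negMulLog (μ.real {x | ∀ i : Fin n, P (T^[i] x) = w i})

/-- the Kolmogorov-Sinai entropy: the supremum over all finite measurable partitions `P` of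
`inf_n Hn μ T P n / n` (for a `T`-invariant probability measure this is the limit) -/
noncomputable def KS {X : Type} [MeasurableSpace X] (μ : Measure X) (T : X → X) : EReal :=
  ⨆ (p : ℕ) (P : X → Fin p) (_ : Measurable P), ⨅ n : ℕ, ((Hn μ T P (n + 1) / (n + 1) : ℝ) : EReal)

end Pool.Agent.EN
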