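import Pool.Agent.helper62.EN.Defs

/-!
# MP_07c750 (quantum unique ergodicity, weight 10), project EN: block A (abstract ergodic theory, Mathlib only), rows `ksy:X`

THEOREM (EN). Let `ν` be a weak-* limit of the averages `(1/N_k) Σ_j |φ_(k,j)|²` over `N_k ≥ r_k^β` orthonormal eigenfunctions with frequencies in
`[r_k, r_k + 1]`, `r_k → ∞`, on a closed hyperbolic surface `M`. Then `ν` is the projection of a probability measure on `Γ \ SL(2, ℝ)` which is invariant
under the geodesic flow and has Kolmogorov-Sinai entropy at least `(1 + β) / 2`.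

RULES. Row `ksy:XXX`: file `Pool/Agent/<seat>/EN/XXX.lean`, `import` this file (or the spec of the row), `set_option autoImplicit false`, namespace
`Pool.Agent.EN`, auxiliary lemmas prefixed `XXX_`, theorem `XXX_proof : XXX_stmt` (rows listed in `from` may be used as hypotheses `(h : YYY_stmt)`). All rows of RS are
proved: `import Pool.Agent.helper62.RS.All` gives `Pool.Agent.RS.A_GFD : GFD_stmt` etc., and `Pool.Agent.helper62.QU.All` gives `QU.A_DOB` etc.
-/

open scoped Topology
open MeasureTheory Filter Set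

namespace Pool.Agent.EN

/-! ## Entropy of finite partitions -/

/-- **Row SBA** (short). Subadditivity of the Shannon entropy. `a i = Σ_k q (i, k)`, `b k = Σ_i q (i, k)`. `Σ_i negMulLog (a i) + Σ_k negMulLog (b k) - Σ negMulLog q = Σ_(i,k) q log (q / (a b))`
(terms with `q = 0` are `0`; if `q > 0` then `a, b > 0`), and `q log (q / (a b)) ≥ q - a b` (`Real.log_le_sub_one_of_pos`), `Σ (q - a b) = 1 - 1 = 0`. -/
def SBA_stmt : Prop := ∀ (ι κ : Type) [Fintype ι] [Fintype κ] (q : ι → κ → ℝ), (∀ i k, 0 ≤ q i k) →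
  ∑ i, ∑ k, q i k = 1 →
    ∑ i, ∑ k, Real.negMulLog (q i k) ≤ ∑ i, Real.negMulLog (∑ k, q i k) + ∑ k, Real.negMulLog (∑ i, q i k)

/-- **Row HSB** (short-medium; from SBA). Subadditivity in time. Words of length `a + b` are pairs of words (`Fin.appendEquiv` or `Fin.append`, `Fin.addCases`); the set of `x` with the itinerary `Fin.append u v` is the intersection of
the set of `x` with the first `a` steps `u` and the preimage under `T^[a]` of the set with itinerary `v`. The marginals: disjoint union over `v` resp. over `u` (measurable sets, finite measure). -/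
def HSB_stmt : Prop := ∀ (X : Type) [MeasurableSpace X] (μ : Measure X) (T : X → X) (p : ℕ) (P : X → Fin p) (a b : ℕ),
  IsProbabilityMeasure μ → Measurable T → Measurable P →
    Hn μ T P (a + b) ≤ Hn μ T P a + Hn (μ.map (T^[a])) T P b

/-- **Row HLG** (short). `negMulLog ≥ 0` on `[0, 1]`; the `p ^ n` numbers `q_w = μ (cylinder)` have sum `1`, and `Σ negMulLog q_w ≤ log (number of words)` (Jensen, `Real.concaveOn_negMulLog`, or `q log (1/(q M)) ≤ 1/M - q` with `M = p ^ n`). -/
def HLG_stmt : Prop := ∀ (X : Type) [MeasurableSpace X] (μ : Measure X) (T : X → X) (p : ℕ) (P : X → Fin p) (n : ℕ),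
  IsProbabilityMeasure μ → Measurable T → Measurable P → 0 ≤ Hn μ T P n ∧ Hn μ T P n ≤ n * Real.log p

/-- **Row BLK** (medium; from HSB, HLG). Blocks of length `m`. For `0 ≤ q < m` write `n = q + J m + s` (if `q ≤ n`; `s < m`): by HSB (induction on `J`) and HLG
`Hn μ n ≤ Hn μ q + Σ_(j < J) Hn (μ.map T^[q + j m]) m + Hn (μ.map ..) s ≤ 2 m log p + Σ_(j < J) Hn (μ.map T^[q + j m]) m`; for `q > n` one has `Hn μ n ≤ m log p`. Sum over `q < m`: every `i < n` is `q + j m` for exactly one pair, all terms are `≥ 0`. -/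
def BLK_stmt : Prop := ∀ (X : Type) [MeasurableSpace X] (μ : Measure X) (T : X → X) (p : ℕ) (P : X → Fin p) (m n : ℕ),
  IsProbabilityMeasure μ → Measurable T → Measurable P → 1 ≤ m →
    m * Hn μ T P n ≤ (∑ i ∈ Finset.range n, Hn (μ.map (T^[i])) T P m) + 2 * m ^ 2 * Real.log p

/-- **Row JEN** (short). Concavity: `Real.concaveOn_negMulLog` and Jensen (`ConcaveOn.le_map_sum`), applied to each word; `(c • Σ ρ_i).real A = c Σ (ρ_i).real A`. -/
def JEN_stmt : Prop := ∀ (X : Type) [MeasurableSpace X] (ρ : ℕ → Measure X) (T : X → X) (p : ℕ) (P : X → Fin p) (m n : ℕ),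
  (∀ i, IsProbabilityMeasure (ρ i)) → 1 ≤ n →
    ∑ i ∈ Finset.range n, Hn (ρ i) T P m ≤ n * Hn ((n : ENNReal)⁻¹ • ∑ i ∈ Finset.range n, ρ i) T P m

/-- **Row MIS** (short; from BLK, JEN, HLG). Misiurewicz' inequality. -/
def MIS_stmt : Prop := ∀ (X : Type) [MeasurableSpace X] (μ : Measure X) (T : X → X) (p : ℕ) (P : X → Fin p) (m n : ℕ),
  IsProbabilityMeasure μ → Measurable T → Measurable P → 1 ≤ m → 1 ≤ n →
    m * Hn μ T P n ≤ n * Hn ((n : ENNReal)⁻¹ • ∑ i ∈ Finset.range n, μ.map (T^[i])) T P m + 2 * m ^ 2 * Real.log p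

/-! ## Topology -/

/-- **Row FNL** (short-medium). The frontier of a finite intersection is contained in the union of the frontiers (`frontier_inter_subset`), the set of `x` with itinerary `w` is the intersection over `i : Fin n` of the preimages under `T^[i]` of
`P ⁻¹' {w i}`, and the frontier of a preimage under a continuous map is contained in the preimage of the frontier (`Continuous.frontier_preimage_subset`), which has measure `μ (frontier ..) = 0` as `μ.map (T^[i]) = μ`. -/
def FNL_stmt : Prop := ∀ (X : Type) [TopologicalSpace X] [MeasurableSpace X] [BorelSpace X] (μ : Measure X) (T : X → X) (p : ℕ) (P : X → Fin p) (n : ℕ)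
  (w : Fin n → Fin p), Continuous T → μ.map T = μ → (∀ i, μ (frontier (P ⁻¹' {i})) = 0) →
    μ (frontier {x | ∀ i : Fin n, P (T^[i] x) = w i}) = 0

/-- **Row CNT** (short-medium; from FNL). Portmanteau: `ProbabilityMeasure.tendsto_measure_of_null_frontier_of_tendsto'` for each word, continuity of `negMulLog`, finite sum. (`X` compact Hausdorff and second countable is metrizable: `TopologicalSpace.metrizableSpace_of_t3_secondCountable`, this gives
`HasOuterApproxClosed`.) Only the limit measure must be invariant and have null frontiers. -/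
def CNT_stmt : Prop := ∀ (X : Type) [TopologicalSpace X] [CompactSpace X] [T2Space X] [SecondCountableTopology X] [MeasurableSpace X] [BorelSpace X]
  (ι : Type) (L : Filter ι) (ρ : ι → ProbabilityMeasure X) (μ : ProbabilityMeasure X) (T : X → X) (p : ℕ) (P : X → Fin p) (n : ℕ),
  Tendsto ρ L (𝓝 μ) → Continuous T → (μ : Measure X).map T = μ → (∀ i, (μ : Measure X) (frontier (P ⁻¹' {i})) = 0) →
    Tendsto (fun k => Hn (ρ k : Measure X) T P n) L (𝓝 (Hn (μ : Measure X) T P n))

/-- **Row PAR** (medium). Small partitions with null boundaries. Metrize `X` (`TopologicalSpace.metrizableSpaceMetric`). For each `x` choose `ε` with `ball x ε ⊆ U x` and a radius `s ∈ (0, ε)` with `λ (frontier (ball x s)) = 0`: the frontier is contained in the sphere, the spheres are disjoint, so only countably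
many have positive measure (`exists_null_frontier_thickening` for `s = {x}`, or `Measure.countable_meas_pos_of_disjoint_iUnion`). Compactness: finitely many of the balls `B_1, .., B_p` cover `X`. `P x` = the least `i` with `x ∈ B_i`. Then `P ⁻¹' {i} = B_i \ ⋃_(j < i) B_j`, its frontier is contained in the union of the frontiers of the balls. -/
def PAR_stmt : Prop := ∀ (X : Type) [TopologicalSpace X] [CompactSpace X] [T2Space X] [SecondCountableTopology X] [MeasurableSpace X] [BorelSpace X]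
  (lam : Measure X) (U : X → Set X), IsFiniteMeasure lam → (∀ x, U x ∈ 𝓝 x) →
    ∃ (p : ℕ) (P : X → Fin p), Measurable P ∧ (∀ i, (P ⁻¹' {i}).Nonempty → ∃ x, P ⁻¹' {i} ⊆ U x) ∧ ∀ i, lam (frontier (P ⁻¹' {i})) = 0

/-! ## Flows and limits -/

/-- a continuous flow -/
structure FlowOn {X : Type} [TopologicalSpace X] (f : ℝ → X → X) : Prop where
  cont : Continuous (fun q : ℝ × X => f q.1 q.2)
  zero : ∀ x, f 0 x = x
  add : ∀ s t x, f (s + t) x = f s (f t x)

/-- the average of the images of `ρ` under `f_s`, `0 ≤ s ≤ 1` -/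
noncomputable def sm {X : Type} [MeasurableSpace X] (f : ℝ → X → X) (ρ : Measure X) : Measure X :=
  Measure.map (fun q : ℝ × X => f q.1 q.2) (((volume : Measure ℝ).restrict (Icc 0 1)).prod ρ)

/-- the discrete average `(1/n) Σ_(i < n) (T^i)_* ρ` -/
noncomputable def av {X : Type} [MeasurableSpace X] (T : X → X) (n : ℕ) (ρ : Measure X) : Measure X :=
  (n : ENNReal)⁻¹ • ∑ i ∈ Finset.range n, ρ.map (T^[i])

/-- **Row SMP** (short-medium). `sm f ρ` and the discrete averages are probability measures; integrals: `integral_map`, `integral_prod` (bounded measurable functions; `X` second countable so `f` is measurable on the product); `f 1 ^[i] = f i`; for the last part add the integrals over `[i, i+1]`. -/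
def SMP_stmt : Prop := ∀ (X : Type) [TopologicalSpace X] [CompactSpace X] [T2Space X] [SecondCountableTopology X] [MeasurableSpace X] [BorelSpace X]
  (f : ℝ → X → X) (ρ : Measure X), FlowOn f → IsProbabilityMeasure ρ →
    IsProbabilityMeasure (sm f ρ) ∧ (∀ (n : ℕ) (T : X → X), 1 ≤ n → Measurable T → IsProbabilityMeasure (av T n ρ)) ∧
    (∀ (Ψ : X → ℝ) (m : ℝ), Measurable Ψ → (∀ x, |Ψ x| ≤ m) → ∫ x, Ψ x ∂(sm f ρ) = ∫ s in (0 : ℝ)..1, ∫ x, Ψ (f s x) ∂ρ) ∧
    ∀ (V : X → ℝ) (n : ℕ), Continuous V → 1 ≤ n →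
      ∫ x, V x ∂(av (f 1) n (sm f ρ)) = (1 / n) * ∫ t in (0 : ℝ)..n, ∫ x, V (f t x) ∂ρ

/-- **Row INL** (medium; from SMP). Invariance of the limit. `μ` is a limit along a filter `L ≤ atTop` on `ℕ` (think of an ultrafilter). For continuous `V` and fixed `s`: `∫ V∘f_s d(av) - ∫ V d(av) = (1/n) (∫_n^(n+s) - ∫_0^s) ∫ V(f_t x) dρ dt`, at most `2 |s| sup|V| / n`. So `∫ V∘f_s dμ = ∫ V dμ`
for all continuous `V` and `μ.map (f s) = μ` (`ext_of_forall_integral_eq_of_IsFiniteMeasure`). -/
def INL_stmt : Prop := ∀ (X : Type) [TopologicalSpace X] [CompactSpace X] [T2Space X] [SecondCountableTopology X] [MeasurableSpace X] [BorelSpace X]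
  (f : ℝ → X → X) (ρ : ℕ → Measure X) (n : ℕ → ℕ) (L : Filter ℕ) (a : ℕ → ProbabilityMeasure X) (μ : ProbabilityMeasure X), FlowOn f →
  (∀ k, IsProbabilityMeasure (ρ k)) → L.NeBot → Tendsto n L atTop → (∀ᶠ k in L, (a k : Measure X) = av (f 1) (n k) (sm f (ρ k))) →
  Tendsto a L (𝓝 μ) → ∀ t, (μ : Measure X).map (f t) = μ

/-- **Row LM1** (medium; from SMP, INL, MIS, CNT). `L` an ultrafilter `≤ atTop` (`Filter.hyperfilter ℕ`); `ProbabilityMeasure X` is compact (Prokhorov, instance for compact `X`), so the averages `av (f 1) (n k) (sm f (ρ k))` (for `n k ≥ 1`, anything otherwise) converge to some `μ` along `L`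
(`Ultrafilter.le_nhds_lim` / `IsCompact.ultrafilter_le_nhds`). Invariance: INL. (a): the average of numbers `≤ a` is `≤ a` (SMP, last part), integrals of continuous functions converge. (b): by MIS with `T = f 1`, `m = j ≥ 1`: `j (h - ε) n_k ≤ n_k Hn (av ..) j + 2 j² log p`, divide by `n_k`, limit by CNT, then `ε → 0`. -/
def LM1_stmt : Prop := ∀ (X : Type) [TopologicalSpace X] [CompactSpace X] [T2Space X] [SecondCountableTopology X] [MeasurableSpace X] [BorelSpace X]
  (f : ℝ → X → X) (ρ : ℕ → Measure X) (n : ℕ → ℕ), FlowOn f → (∀ k, IsProbabilityMeasure (ρ k)) → Tendsto n atTop atTop →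
  ∃ μ : Measure X, IsProbabilityMeasure μ ∧ (∀ t, μ.map (f t) = μ) ∧
    (∀ (V : X → ℝ) (a : ℝ), Continuous V → (∀ᶠ k in atTop, ∀ t : ℝ, 0 ≤ t → t ≤ n k → ∫ x, V (f t x) ∂ρ k ≤ a) → ∫ x, V x ∂μ ≤ a) ∧
    ∀ (p : ℕ) (P : X → Fin p) (h : ℝ), Measurable P → (∀ i, μ (frontier (P ⁻¹' {i})) = 0) →
      (∀ ε : ℝ, 0 < ε → ∀ᶠ k in atTop, (h - ε) * n k ≤ Hn (sm f (ρ k)) (f 1) P (n k)) → ∀ j : ℕ, h * j ≤ Hn μ (f 1) P j

/-- **Row LM2** (medium; from CNT, PAR). The second limit. `μ` = the limit of the `μs m` along an ultrafilter `≤ atTop`; invariance and the integrals pass to the limit. `lam = μ + Σ_m 2^(-m-1) μs m` (`Measure.sum`), `P` from PAR for `lam`, `U`; all frontiers are null for every `μs m` and for `μ`. For `j ≥ 0`: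
`(h - e m p) j ≤ Hn (μs m) j → Hn μ j` (CNT), `e m p → 0`, so `h j ≤ Hn μ j`, and `h ≤ KS μ (f 1)` (`le_iSup_of_le`, `le_iInf`). -/
def LM2_stmt : Prop := ∀ (X : Type) [TopologicalSpace X] [CompactSpace X] [T2Space X] [SecondCountableTopology X] [MeasurableSpace X] [BorelSpace X]
  (f : ℝ → X → X) (μs : ℕ → Measure X) (U : X → Set X) (h : ℝ) (e : ℕ → ℕ → ℝ), FlowOn f → (∀ m, IsProbabilityMeasure (μs m)) →
  (∀ m t, (μs m).map (f t) = μs m) → (∀ x, U x ∈ 𝓝 x) → (∀ p, Tendsto (fun m => e m p) atTop (𝓝 0)) →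
  (∀ (m p : ℕ) (P : X → Fin p), Measurable P → (∀ i, (P ⁻¹' {i}).Nonempty → ∃ x, P ⁻¹' {i} ⊆ U x) → (∀ i, μs m (frontier (P ⁻¹' {i})) = 0) →
    ∀ j : ℕ, (h - e m p) * j ≤ Hn (μs m) (f 1) P j) →
  ∃ μ : Measure X, IsProbabilityMeasure μ ∧ (∀ t, μ.map (f t) = μ) ∧
    (∀ (V : X → ℝ) (a : ℝ), Continuous V → (∀ ε : ℝ, 0 < ε → ∀ᶠ m in atTop, ∫ x, V x ∂μs m ≤ a + ε) → ∫ x, V x ∂μ ≤ a) ∧
    (h : EReal) ≤ KS μ (f 1)

end Pool.Agent.EN
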