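import Pool.Agent.helper62.EN.SpecX
import Pool.Agent.helper62.RS.SpecE

/-!
# MP_07c750, project EN: block P (packet measures) and block F (assembly), rows `ksy:X`

Rules as in `SpecA`. All rows of RS are proved (`Pool.Agent.helper62.RS.All`: `RS.A_TH4`, `RS.A_ETD`, `RS.A_EKB`, `RS.A_NM2`, `RS.A_INB`, `RS.A_QNT`, `RS.A_OV2`, `RS.A_CV1`, `RS.A_FL0`, `RS.A_GR2`, `RS.A_GFD`, ...) and may be used.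
-/

open scoped MatrixGroups ContDiff Topology UpperHalfPlane ComplexConjugate
open UpperHalfPlane MeasureTheory Filter Set

namespace Pool.Agent.EN

open Pool.Agent.RS

/-- a good packet `c` at the frequency `r`, with the frame bound `κ` and the bound `k₀` for the kernel -/
structure GD (Γ : Subgroup SL(2, ℝ)) (F : Set ℍ) (c : ℍ → ℂ) (r κ k₀ δ : ℝ) : Prop where
  surf : QU.SurfaceGroup Γ
  nice : QU.NiceDom Γ F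
  tb : TB (1 / 4) c
  pκ : 0 < κ
  p0 : 0 < k₀
  up : ∀ u : ℍ → ℂ, InvC Γ u → qn F c r u ≤ κ * nn F u
  ker : ∀ g g', ‖kk Γ F (pk r c) g g'‖ ≤ k₀
  low : ∀ (s : ℝ) (ψ : ℍ → ℂ), |s - r| ≤ 1 → EigL Γ (1 / 4 + s ^ 2) ψ → (1 - δ ^ 2) * κ * nn F ψ ≤ qn F c r ψ

/-- the density `(1/(2Nκ)) Σ_j A_j (|a_j|² + |b_j|²)` -/
noncomputable def wt (F : Set ℍ) (c : ℍ → ℂ) (r κ : ℝ) {N : ℕ} (φ : Fin N → ℍ → ℂ) (g : SL(2, ℝ)) : ℝ :=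
  (∑ j, qn F c r (φ j) / κ * (‖Wf (RS.pk r c) (fun z => conj (φ j z)) g‖ ^ 2 + ‖Wf (RS.pk r c) (φ j) g‖ ^ 2)) / (2 * N * κ)

/-- the total mass -/
noncomputable def ms (F : Set ℍ) (c : ℍ → ℂ) (r κ : ℝ) {N : ℕ} (φ : Fin N → ℍ → ℂ) : ℝ := iR F (wt F c r κ φ)

/-- the packet measure on `X` -/
noncomputable def rho (Γ : Subgroup SL(2, ℝ)) (F : Set ℍ) (c : ℍ → ℂ) (r κ : ℝ) {N : ℕ} (φ : Fin N → ℍ → ℂ) : Measure (XG Γ) :=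
  (ENNReal.ofReal (ms F c r κ φ))⁻¹ • ((mG.restrict (dG F)).withDensity (fun g => ENNReal.ofReal (wt F c r κ φ g))).map (mkX Γ)

/-- **Row WTP** (medium; from GR2, GFD, GWB, GBD, XFL). Basic properties. `A_j = qn F c r φ_j / κ ∈ [1 - δ², 1]` (`nn F φ_j = 1` by orthonormality; `|s_j - r| ≤ 1`; `Eig` gives `EigL`). `iR F ‖Wf e φ_j‖² = qn φ_j = κ A_j`, and the same for `conj φ_j` (an eigenfunction with the same eigenvalue, `qn = nn * bk` by GR2).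
So `ms = (Σ A_j²)/N ∈ [(1-δ²)², 1]`. Continuity and invariance: GWB. The measure: `withDensity`, `lintegral_map`, `integral_map`, `integral_withDensity_eq_integral_smul` (everything bounded and measurable on `dG F`, which has finite measure). -/
def WTP_stmt : Prop := ∀ (Γ : Subgroup SL(2, ℝ)) (F : Set ℍ) (c : ℍ → ℂ) (r κ k₀ δ : ℝ) (N : ℕ) (s : Fin N → ℝ) (φ : Fin N → ℍ → ℂ),
  GD Γ F c r κ k₀ δ → 0 < δ → δ ≤ 1 / 24 → EFam Γ F r N s φ → 1 ≤ N →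
  (∀ g, 0 ≤ wt F c r κ φ g) ∧ InvG Γ (wt F c r κ φ) ∧ 1 - 2 * δ ^ 2 ≤ ms F c r κ φ ∧ ms F c r κ φ ≤ 1 ∧
  (∀ j, qn F c r (φ j) / κ ≤ 1 ∧ 0 ≤ qn F c r (φ j) / κ) ∧ IsProbabilityMeasure (rho Γ F c r κ φ) ∧
  ∀ Ψ : XG Γ → ℝ, Measurable Ψ → (∃ m : ℝ, ∀ x, |Ψ x| ≤ m) →
    ms F c r κ φ * ∫ x, Ψ x ∂(rho Γ F c r κ φ) = iR F (fun g => Ψ (mkX Γ g) * wt F c r κ φ g)

/-- **Row KIN** (medium; from TH4, ETD; compare row EIN of RS, file helper?/RS/EIN.lean, of which this is the general form). TH4 for `μ = mG.restrict (dG F)` and the data of ETD; `Σ A_j² / N ≥ (1-δ²)²`; `(Σ A_j (∫ Φ |a_j|² + ∫ Φ |b_j|²)) / (N κ) = 2 iR F (Φ wt)`. -/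
def KIN_stmt : Prop := ∀ (Γ : Subgroup SL(2, ℝ)) (F : Set ℍ) (c : ℍ → ℂ) (r κ k₀ δ : ℝ) (N : ℕ) (s : Fin N → ℝ) (φ : Fin N → ℍ → ℂ),
  GD Γ F c r κ k₀ δ → 0 < δ → δ ≤ 1 / 24 → EFam Γ F r N s φ → 1 ≤ N →
  ∀ (Φ : SL(2, ℝ) → ℝ) (L : ℝ), Measurable Φ → (∀ g, |Φ g| ≤ L) → ∀ x : ℝ, 0 ≤ x → x ≤ 1 / 2 →
    (1 - δ ^ 2) ^ 2 + 2 * x * iR F (fun g => Φ g * wt F c r κ φ g) - 2 * L ^ 2 * Real.exp (2 * x * L) * x ^ 2 ≤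
      Real.exp (x * (2 * Real.log (k₀ / κ) + 2 * Real.log (iR F (fun g => Real.exp (Φ g))) - Real.log N))

/-- **Row NUB** (short; Mathlib only). `x = δ / L ≤ 1/2`, `y = 2 δ² + 2 δ² e^(2δ) - 2 x J`: `|y| ≤ 3 δ ≤ 1/8` (`e^(1/12) ≤ 1.1`), `(1-δ²)² ≥ 1 - 2δ²`, so `exp (x B) ≥ 1 - y`, `x B ≥ log (1 - y) ≥ - y - y² ≥ 2 x J - 4.2 δ² - 9 δ²`; divide by `x`. -/
def NUB_stmt : Prop := ∀ δ L J B : ℝ, 0 < δ → δ ≤ 1 / 24 → 1 ≤ L → |J| ≤ L →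
  (∀ x : ℝ, 0 ≤ x → x ≤ 1 / 2 → (1 - δ ^ 2) ^ 2 + 2 * x * J - 2 * L ^ 2 * Real.exp (2 * x * L) * x ^ 2 ≤ Real.exp (x * B)) →
    2 * J ≤ B + 14 * δ * L

/-- **Row KIS** (medium; from WTP, KIN, NUB, SMP, XFL, XTX, GFD). For `0 ≤ t ≤ 1` KIN and NUB for `Φ(g) = Ψ(mkX (g a_t)) = Ψ(fl t (mkX g))`: `iR F (Φ wt) = ms ∫ Ψ(fl t x) drho` (WTP; `|..| ≤ L` as `∫ wt = ms ≤ 1`) and `iR F exp Φ = iR F exp Ψ(mkX g) = ∫ exp Ψ dmX` (GFD, second part, for the invariant function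
`g ↦ exp Ψ(mkX g)`; `integral_map`). So `2 ms ∫ Ψ(fl t x) drho ≤ B + 14 δ L` for every `t`; integrate over `[0,1]` (SMP, third part). -/
def KIS_stmt : Prop := ∀ (Γ : Subgroup SL(2, ℝ)) (F : Set ℍ) (c : ℍ → ℂ) (r κ k₀ δ : ℝ) (N : ℕ) (s : Fin N → ℝ) (φ : Fin N → ℍ → ℂ),
  GD Γ F c r κ k₀ δ → 0 < δ → δ ≤ 1 / 24 → EFam Γ F r N s φ → 1 ≤ N →
  ∀ (Ψ : XG Γ → ℝ) (L : ℝ), Measurable Ψ → 1 ≤ L → (∀ x, |Ψ x| ≤ L) →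
    2 * (ms F c r κ φ * ∫ x, Ψ x ∂(sm (fl Γ) (rho Γ F c r κ φ))) ≤
      2 * Real.log (k₀ / κ) + 2 * Real.log (∫ x, Real.exp (Ψ x) ∂(mX Γ F)) - Real.log N + 14 * δ * L

/-- **Row ENT** (medium; from WTP, KIS, SMP, XFL, XTX). The entropy of the packet measure. `q w = (sm (fl Γ) rho).real (cylinder w)` (sum `1`), `w(x)` = the itinerary of `x`, `Ψ(x) = n + log (q (w(x)) + p^(-n))`, `|Ψ| ≤ L = n (1 + log p) + 1`. `∫ e^Ψ dmX = Σ_w mX(cyl w) e^n (q w + p^(-n)) ≤ 2 C` (and `> 0`), `∫ Ψ dsm =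
n + Σ_w q w log (q w + p^(-n)) ≥ n - Hn`. KIS: `2 ms ∫ Ψ ≤ 2 log (k₀/κ) + 2 log (2C) - log N + 14 δ L`, and `∫ Ψ ≤ ms ∫ Ψ + 2 δ² L`. -/
def ENT_stmt : Prop := ∀ (Γ : Subgroup SL(2, ℝ)) (F : Set ℍ) (c : ℍ → ℂ) (r κ k₀ δ : ℝ) (N : ℕ) (s : Fin N → ℝ) (φ : Fin N → ℍ → ℂ),
  GD Γ F c r κ k₀ δ → 0 < δ → δ ≤ 1 / 24 → EFam Γ F r N s φ → 1 ≤ N →
  ∀ (p n : ℕ) (P : XG Γ → Fin p) (C : ℝ), Measurable P → 1 ≤ n → 0 < C →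
    (∀ w : Fin n → Fin p, (mX Γ F).real {x | ∀ i : Fin n, P ((fl Γ 1)^[i] x) = w i} ≤ C * Real.exp (-n)) →
    n - Real.log (k₀ / κ) - Real.log (2 * C) + Real.log N / 2 - 8 * δ * (n * (1 + Real.log p) + 1) ≤
      Hn (sm (fl Γ) (rho Γ F c r κ φ)) (fl Γ 1) P n

/-- **Row LVF** (short-medium; from WTP, XFL). Functions on `M`. `ms ∫ V(pr (fl t x)) drho = iR F (V(mkM ((g aM t) • I)) wt) ≤ (1/N) Σ_j A_j (∫ V |φ_j|² + η) ≤ avg + η` (the hypothesis for `φ_j` and `conj φ_j`, `0 ≤ A_j ≤ 1`, `nn F φ_j = 1`), and `ms ≥ 1 - 2δ² ≥ 1 - 2η`, `η ≤ 1/20`, `avg ≤ 1`. -/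
def LVF_stmt : Prop := ∀ (Γ : Subgroup SL(2, ℝ)) (F : Set ℍ) (c : ℍ → ℂ) (r κ k₀ δ : ℝ) (N : ℕ) (s : Fin N → ℝ) (φ : Fin N → ℍ → ℂ),
  GD Γ F c r κ k₀ δ → 0 < δ → δ ≤ 1 / 24 → EFam Γ F r N s φ → 1 ≤ N →
  ∀ (V : MG Γ → ℝ) (η t : ℝ), Continuous V → (∀ x, 0 ≤ V x ∧ V x ≤ 1) → δ ^ 2 ≤ η → η ≤ 1 / 20 →
    (∀ (s' : ℝ) (ψ : ℍ → ℂ), |s' - r| ≤ 1 → EigL Γ (1 / 4 + s' ^ 2) ψ →
      iR F (fun g => V (mkM Γ ((g * aM t) • I)) * ‖Wf (RS.pk r c) ψ g‖ ^ 2) ≤ κ * ((∫ z in F, V (mkM Γ z) * ‖ψ z‖ ^ 2) + η * nn F ψ)) →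
    ∫ x, V (pr Γ (fl Γ t x)) ∂(rho Γ F c r κ φ) ≤ (∑ j, ∫ z in F, V (mkM Γ z) * ‖φ j z‖ ^ 2) / N + 5 * η

/-- **Row PK2** (medium; from CV1, NM2, OV2, INB, QNT; the proof is the one of PKT, file helper72/RS/PKT.lean, with other quantifiers). `w_m = 1/(64 (m + 24))`, `c m = pc α α` for a bump `α` in `[-w_m, w_m]` (`PKT_bump`), tolerance `κ = w_m²` in NM2: `1 - 3 w_m² ≥ 1 - (1/(m+24))²`. For `V`, `η`: `m₀` such that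
`w_m ≤ w0(V, η/4)` (QNT) and `B(V) √(2 w_m²) ≤ η/4` (INB) for `m ≥ m₀`. -/
def PK2_stmt : Prop := ∀ (Γ : Subgroup SL(2, ℝ)) (F : Set ℍ), QU.SurfaceGroup Γ → QU.NiceDom Γ F →
  ∃ (c : ℕ → ℍ → ℂ) (A K r0 : ℕ → ℝ),
    (∀ m : ℕ, TB (1 / 4) (c m) ∧ 0 < A m ∧ 0 < K m ∧ 1 ≤ r0 m ∧ ∀ r : ℝ, r0 m ≤ r →
      (∀ u : ℍ → ℂ, InvC Γ u → qn F (c m) r u ≤ A m / r * nn F u) ∧
      (∀ g g' : SL(2, ℝ), ‖∫ z : ℍ, RS.pk r (c m) (g⁻¹ • z) * RS.pk r (c m) (g'⁻¹ • z)‖ ≤ K m / Real.sqrt r) ∧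
      ∀ (s : ℝ) (ψ : ℍ → ℂ), |s - r| ≤ 1 → EigL Γ (1 / 4 + s ^ 2) ψ →
        (1 - (1 / ((m : ℝ) + 24)) ^ 2) * (A m / r) * nn F ψ ≤ qn F (c m) r ψ) ∧
    ∀ V : ℍ → ℝ, QU.Inv Γ V → QU.CD 2 V → (∀ z, 0 ≤ V z) → (∀ z, V z ≤ 1) → ∀ η : ℝ, 0 < η → ∃ m₀ : ℕ, ∀ m : ℕ, m₀ ≤ m →
      ∃ K' r1 : ℝ, 0 < K' ∧ ∀ r : ℝ, r1 ≤ r → ∀ (s : ℝ) (ψ : ℍ → ℂ), |s - r| ≤ 1 → EigL Γ (1 / 4 + s ^ 2) ψ →
        ∀ t : ℝ, 0 ≤ t → Real.exp t ≤ r / K' →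
          iR F (fun g => V ((g * aM t) • I) * ‖Wf (RS.pk r (c m)) ψ g‖ ^ 2) ≤ A m / r * ((∫ z in F, V z * ‖ψ z‖ ^ 2) + η * nn F ψ)

/-- the length of the orbits -/
noncomputable def nk (r : ℝ) : ℕ := ⌊Real.log r - Real.sqrt (Real.log r)⌋₊

/-- **Row NKL** (short; Mathlib only). `nk r ≤ log r - √(log r)` if this is `≥ 0`, and `≥ log r - √(log r) - 1`; `exp (nk r) ≤ r exp (-√(log r))`; the lower bound: `log N ≥ b log r` with `b < β` (`r ^ b ≤ N`), `log r ≤ (1 + ε') nk r` for large `r`. Last part: `n - (1/2) (log r - log N) - C' - 8 δ (n (1+lp) + 1) ≥ ((1+β)/2 - 8 δ (1 + lp) - ε) n`;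
choose `b = β - ε/2` (treat `1 - b < 0` separately or use `|1 - b| ε'` small). -/
def NKL_stmt : Prop := (∀ r : ℕ → ℝ, Tendsto r atTop atTop → Tendsto (fun k => nk (r k)) atTop atTop) ∧
  (∀ K' : ℝ, 0 < K' → ∃ r1 : ℝ, ∀ r : ℝ, r1 ≤ r → Real.exp (nk r) ≤ r / K') ∧
  ∀ (r : ℕ → ℝ) (N : ℕ → ℕ) (β C' δ lp ε : ℝ), Tendsto r atTop atTop → (∀ k, 1 ≤ N k) → (∀ b < β, ∀ᶠ k in atTop, r k ^ b ≤ N k) → 0 ≤ δ → 0 ≤ lp → 0 < ε →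
    ∀ᶠ k in atTop, ((1 + β) / 2 - 8 * δ * (1 + lp) - ε) * nk (r k) ≤
      nk (r k) - (Real.log (r k) - Real.log (N k)) / 2 - C' - 8 * δ * (nk (r k) * (1 + lp) + 1)

/-- **Row GMU** (medium-long; from WTP, ENT, LVF, LM1, XFL, XTX, NKL, EKB). The limit for one packet. `κ = A/r`, `k₀ = n₀ K/√r` with `n₀` from EKB: `GD` holds for `r ≥ max r0 1`; `ρ_k = rho Γ F c (r k) (A/r k) (φ k)` for these `k`, a Dirac measure for the other finitely many `k` (so a probability measure always). LM1 with `n_k = nk (r k)` (NKL).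
(a): for large `k` and `0 ≤ t ≤ n_k` one has `exp t ≤ r/K'` (NKL), LVF, and `avg ≤ a + ε`; `ε → 0` (LM1 (a) with `a + 5η + ε`). (b): ENT with `log (k₀/κ) = (1/2) log r + log (n₀ K/A)` and NKL with `lp = log p` (`p ≥ 1` as `X` is nonempty). -/
def GMU_stmt : Prop := ∀ (Γ : Subgroup SL(2, ℝ)) (F : Set ℍ) (r : ℕ → ℝ) (N : ℕ → ℕ) (s : ∀ k, Fin (N k) → ℝ) (φ : ∀ k, Fin (N k) → ℍ → ℂ)
  (β A K r0 δ : ℝ) (c : ℍ → ℂ), QU.SurfaceGroup Γ → QU.NiceDom Γ F → Tendsto r atTop atTop → (∀ k, EFam Γ F (r k) (N k) (s k) (φ k)) → (∀ k, 1 ≤ N k) →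
  (∀ b < β, ∀ᶠ k in atTop, r k ^ b ≤ N k) → TB (1 / 4) c → 0 < A → 0 < K → 1 ≤ r0 → 0 < δ → δ ≤ 1 / 24 →
  (∀ r' : ℝ, r0 ≤ r' → (∀ u : ℍ → ℂ, InvC Γ u → qn F c r' u ≤ A / r' * nn F u) ∧
    (∀ g g' : SL(2, ℝ), ‖∫ z : ℍ, RS.pk r' c (g⁻¹ • z) * RS.pk r' c (g'⁻¹ • z)‖ ≤ K / Real.sqrt r') ∧
    ∀ (s' : ℝ) (ψ : ℍ → ℂ), |s' - r'| ≤ 1 → EigL Γ (1 / 4 + s' ^ 2) ψ → (1 - δ ^ 2) * (A / r') * nn F ψ ≤ qn F c r' ψ) →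
  ∃ μ : Measure (XG Γ), IsProbabilityMeasure μ ∧ (∀ t, μ.map (fl Γ t) = μ) ∧
    (∀ (V : MG Γ → ℝ) (η a : ℝ), Continuous V → (∀ x, 0 ≤ V x ∧ V x ≤ 1) → δ ^ 2 ≤ η → η ≤ 1 / 20 →
      (∃ K' r1 : ℝ, 0 < K' ∧ ∀ r' : ℝ, r1 ≤ r' → ∀ (s' : ℝ) (ψ : ℍ → ℂ), |s' - r'| ≤ 1 → EigL Γ (1 / 4 + s' ^ 2) ψ → ∀ t : ℝ, 0 ≤ t → Real.exp t ≤ r' / K' →
        iR F (fun g => V (mkM Γ ((g * aM t) • I)) * ‖Wf (RS.pk r' c) ψ g‖ ^ 2) ≤ A / r' * ((∫ z in F, V (mkM Γ z) * ‖ψ z‖ ^ 2) + η * nn F ψ)) →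
      Tendsto (fun k => (∑ j, ∫ z in F, V (mkM Γ z) * ‖φ k j z‖ ^ 2) / (N k : ℝ)) atTop (𝓝 a) → ∫ x, V (pr Γ x) ∂μ ≤ a + 5 * η) ∧
    ∀ (p : ℕ) (P : XG Γ → Fin p) (C : ℝ), Measurable P → 0 < C →
      (∀ (n : ℕ) (w : Fin n → Fin p), 1 ≤ n → (mX Γ F).real {x | ∀ i : Fin n, P ((fl Γ 1)^[i] x) = w i} ≤ C * Real.exp (-n)) →
      (∀ i, μ (frontier (P ⁻¹' {i})) = 0) → ∀ j : ℕ, ((1 + β) / 2 - 8 * δ * (1 + Real.log p)) * j ≤ Hn μ (fl Γ 1) P j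

/-- **Row FNC** (medium; from GMU, PK2, LM2, XCY, XNB, XFL, XTX, XTM, ESM). A nice fundamental domain, `C²` functions and the two limits. `c m, ..` from PK2, `μs m` from GMU with `δ = 1/(m + 24)`. `h = (1+β)/2`, `e m p = 8 (1 + log p)/(m + 24)`, `U = Ux Γ δ'` with `δ'` from XCY. LM2 gives `μ`. For continuous `V` with values in `[0,1]`, `V ∘ mkM` is within `ε`
of some invariant `C²` function `h'` with values in `[0,1]` (ESM), `h' = V' ∘ mkM` with `V'` continuous (`Quotient.lift`, `XFL`). The hypothesis of this row for `V'` and GMU (`(1/(m+24))² ≤ η` for large `m`, PK2 for `h'`) give `∫ V'(pr x) dμs m ≤ ∫ V' dν + 5η` for all `m ≥ m₀(h', η)`, so by LM2 `∫ V'(pr x) dμ ≤ ∫ V' dν + 5η`, `η → 0`;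
`ν(M) = 1` (`V = 1`), so `∫ V(pr x) dμ ≤ ∫ V dν + 2ε`, `ε → 0`; apply it to `1 - V`: equality; scaling gives all continuous `V`, and `μ.map (pr Γ) = ν` (`ext_of_forall_integral_eq_of_IsFiniteMeasure`). -/
def FNC_stmt : Prop := ∀ (Γ : Subgroup SL(2, ℝ)) (F : Set ℍ) (r : ℕ → ℝ) (N : ℕ → ℕ) (s : ∀ k, Fin (N k) → ℝ) (φ : ∀ k, Fin (N k) → ℍ → ℂ)
  (β : ℝ) (ν : Measure (MG Γ)), QU.SurfaceGroup Γ → QU.NiceDom Γ F → Tendsto r atTop atTop → (∀ k, EFam Γ F (r k) (N k) (s k) (φ k)) → (∀ k, 1 ≤ N k) →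
  (∀ b < β, ∀ᶠ k in atTop, r k ^ b ≤ N k) → IsFiniteMeasure ν →
  (∀ V : MG Γ → ℝ, Continuous V → Tendsto (fun k => (∑ j, ∫ z in F, V (mkM Γ z) * ‖φ k j z‖ ^ 2) / (N k : ℝ)) atTop (𝓝 (∫ x, V x ∂ν))) →
  ∃ μ : Measure (XG Γ), IsProbabilityMeasure μ ∧ (∀ t, μ.map (fl Γ t) = μ) ∧ μ.map (pr Γ) = ν ∧ (((1 + β) / 2 : ℝ) : EReal) ≤ KS μ (fl Γ 1)

/-- **Row FNA** (short-medium; from FNC, QU.DOM, QU.DOB). Any fundamental domain `F`: integrals of invariant functions over `F` and over a nice `F₀` agree (QU.DOB; for complex functions `IsFundamentalDomain.setIntegral_eq`), in `EFam` and in the averages. -/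
def FNA_stmt : Prop := ∀ (Γ : Subgroup SL(2, ℝ)) (F : Set ℍ) (r : ℕ → ℝ) (N : ℕ → ℕ) (s : ∀ k, Fin (N k) → ℝ) (φ : ∀ k, Fin (N k) → ℍ → ℂ)
  (β : ℝ) (ν : Measure (MG Γ)), QU.SurfaceGroup Γ → IsFundamentalDomain Γ F (volume : Measure ℍ) → Tendsto r atTop atTop →
  (∀ k, EFam Γ F (r k) (N k) (s k) (φ k)) → (∀ k, 1 ≤ N k) → (∀ b < β, ∀ᶠ k in atTop, r k ^ b ≤ N k) → IsFiniteMeasure ν →
  (∀ V : MG Γ → ℝ, Continuous V → Tendsto (fun k => (∑ j, ∫ z in F, V (mkM Γ z) * ‖φ k j z‖ ^ 2) / (N k : ℝ)) atTop (𝓝 (∫ x, V x ∂ν))) →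
  ∃ μ : Measure (XG Γ), IsProbabilityMeasure μ ∧ (∀ t, μ.map (fl Γ t) = μ) ∧ μ.map (pr Γ) = ν ∧ (((1 + β) / 2 : ℝ) : EReal) ≤ KS μ (fl Γ 1)

end Pool.Agent.EN
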